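import Mathlib
import Pool.Agent.Lib.MP_886b5a_gt.Surf

/-!
Every flat Klein bottle has an isometric immersion into `ℝ⁴` whose image is cut out by
polynomials of degree at most three; for `2π d ≤ T c` it is injective off the two one-sided
closed geodesics.
-/

open Real

namespace Pool.Agent.Results.MP_886b5a_gt.CubicImmersion

open Pool.Agent.Lib.MP_886b5a_gt MvPolynomial

theorem aux {c d : ℝ} (hc : 0 < c) (hd : 0 < d) (K : ℕ) (hK : 0 < K)
    (hD : 2 * π * d / (c * K) ≤ 2 * arc 1 π) :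
      ∃ F : ℝ × ℝ → (Fin 4 → ℝ),
        ContDiff ℝ ((⊤ : ℕ∞) : WithTop ℕ∞) F ∧
        (∀ p : ℝ × ℝ, F (p.1, p.2 + d) = F p ∧ F (p.1 + c, -p.2) = F p) ∧
        (∀ p : ℝ × ℝ, ∀ u v : ℝ,
          ∑ i : Fin 4, (fderiv ℝ F p (u, v) i) ^ 2 = u ^ 2 + v ^ 2) ∧
        (K = 1 → ∀ p q : ℝ × ℝ, F p = F q → (¬ ∃ n : ℤ, p.2 = (n : ℝ) * d / 2) →
            ∃ m n : ℤ, q.1 = p.1 + (m : ℝ) * c ∧ q.2 = (-1 : ℝ) ^ m * p.2 + (n : ℝ) * d) ∧
        ∃ S : Finset (MvPolynomial (Fin 4) ℝ), (∀ P ∈ S, P.totalDegree ≤ 3) ∧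
          Set.range F = {x : Fin 4 → ℝ | ∀ P ∈ S, MvPolynomial.eval x P = 0} := by
  classical
  have hKr : (0 : ℝ) < K := by exact_mod_cast hK
  obtain ⟨m, hm, hm1, hmD⟩ := exists_param (by positivity) hD
  obtain ⟨τ, hτ, hτ1, hτ2, hτd⟩ := exists_inverse hm
  set k := √(1 - m ^ 2) with hk
  have hkm : k ^ 2 + m ^ 2 = 1 := by rw [hk, sq_sqrt (by nlinarith)]; ring
  set a := c / (2 * π) with ha
  have a0 : 0 < a := by positivity
  have hca : c / a = 2 * π := by rw [ha]; field_simp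
  have hda : d / a = K * (2 * arc m π) := by rw [hmD, ha]; field_simp
  have τneg : ∀ y, τ (-y) = -τ y := fun y => by
    conv_lhs => rw [← hτ1 y, ← arc_neg, hτ2]
  let t : ℝ × ℝ → ℝ := fun p => τ (p.2 / a)
  let f : ℝ × ℝ → ℝ := fun p => (p.1 / a - k * m * cos (t p)) / 2
  refine ⟨fun p => a • pt k m (f p) (t p), ?_, fun p => ⟨?_, ?_⟩, fun p u v => ?_, ?_, ?_⟩
  · have ct : ContDiff ℝ ((⊤ : ℕ∞) : WithTop ℕ∞) t := hτ.comp (by fun_prop)
    have cf : ContDiff ℝ ((⊤ : ℕ∞) : WithTop ℕ∞) f := by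
      simp only [f]; fun_prop
    refine ContDiff.const_smul a (contDiff_pi.2 fun i => ?_)
    fin_cases i <;> simp only [pt] <;> simp <;> fun_prop
  · have e : t (p.1, p.2 + d) = t p + K * (2 * π) := by
      simp only [t]
      have := arc_add_int m (τ (p.2 / a)) (2 * K)
      rw [hτ1] at this
      push_cast at this
      rw [add_div, hda, show (K : ℝ) * (2 * arc m π) = 2 * K * arc m π by ring, ← this, hτ2]
      ring
    have e' : f (p.1, p.2 + d) = f p := by
      simp only [f, e, cos_add_nat_mul_two_pi]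
    simp only [e, e', pt_period]
  · have e : t (p.1 + c, -p.2) = -t p := by
      simp only [t, neg_div, τneg]
    have e' : f (p.1 + c, -p.2) = f p + π := by
      simp only [f, e, cos_neg, add_div, hca]; ring
    simp only [e, e', pt_shift]
  · have ht : HasFDerivAt t (((lam m (t p))⁻¹ / a) • ContinuousLinearMap.snd ℝ ℝ ℝ) p := by
      have h1 : HasFDerivAt (fun q : ℝ × ℝ => q.2 / a)
          (a⁻¹ • ContinuousLinearMap.snd ℝ ℝ ℝ) p := by
        simp only [div_eq_inv_mul]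
        exact hasFDerivAt_snd.const_mul _
      have := (hτd (p.2 / a)).comp_hasFDerivAt p h1
      rw [smul_smul, ← div_eq_mul_inv] at this
      exact this
    have h1 : HasFDerivAt (fun q : ℝ × ℝ => q.1 / a)
        (a⁻¹ • ContinuousLinearMap.fst ℝ ℝ ℝ) p := by
      simp only [div_eq_inv_mul]
      exact hasFDerivAt_fst.const_mul _
    have hf : HasFDerivAt f _ p := (h1.sub (ht.cos.const_mul (k * m))).mul_const (2⁻¹ : ℝ)
    rw [pt_deriv hkm hf ht, ← lam_sq hm]
    have l0 := (lam_pos hm (t p)).ne'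
    simp only [sub_apply, smul_apply, smul_eq_mul, ContinuousLinearMap.coe_fst',
      ContinuousLinearMap.coe_snd']
    field_simp
    ring
  · rintro rfl p q hpq hp
    have hpq' : pt k m (f p) (t p) = pt k m (f q) (t q) := smul_right_injective _ a0.ne' hpq
    simp only [Nat.cast_one, one_mul] at hda
    have hy : ∀ p : ℝ × ℝ, p.2 = a * arc m (t p) := fun p => by
      simp only [t, hτ1]; field_simp
    have hd' : d = a * (2 * arc m π) := by rw [← hda]; field_simp
    have hs : sin (t p) ≠ 0 := by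
      intro h0
      obtain ⟨n, hn⟩ := sin_eq_zero_iff.1 h0
      refine hp ⟨n, ?_⟩
      have := arc_add_int m 0 n
      rw [zero_add, arc_zero, zero_add, hn] at this
      rw [hy p, this, hd']
      ring
    obtain ⟨j, n, h1, h2⟩ := pt_inj hm hpq' hs
    refine ⟨j, n, ?_, ?_⟩
    · have hcos : cos (t q) = cos (t p) := by
        rw [h2, cos_add_int_mul_two_pi]
        rcases Int.even_or_odd j with h | h <;> simp [h.neg_one_zpow]
      simp only [f, hcos] at h1
      have hc' : c = a * (2 * π) := by rw [← hca]; field_simp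
      have : q.1 / a = p.1 / a + j * (2 * π) := by linarith
      rw [hc']
      field_simp at this
      linarith
    · have := arc_add_int m ((-1) ^ j * t p) (2 * n)
      push_cast at this
      rw [show (-1) ^ j * t p + 2 * n * π = t q by rw [h2]; ring] at this
      have hneg : arc m ((-1) ^ j * t p) = (-1) ^ j * arc m (t p) := by
        rcases Int.even_or_odd j with h | h <;> simp [h.neg_one_zpow, arc_neg]
      rw [hy q, hy p, this, hneg, hd']
      ring
  · refine ⟨{C 4 * (X 0 ^ 2 + X 1 ^ 2) + X 2 ^ 2 + X 3 ^ 2 - C (4 * a ^ 2),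
      X 0 * (X 2 ^ 2 - X 3 ^ 2) + C 2 * X 1 * X 2 * X 3 - C (k * a) * (X 2 ^ 2 + X 3 ^ 2)},
      ?_, ?_⟩
    · have hX : ∀ i : Fin 4, (X i : MvPolynomial (Fin 4) ℝ).totalDegree ≤ 1 := fun i =>
        (totalDegree_X i).le
      have hX2 : ∀ i : Fin 4, (X i ^ 2 : MvPolynomial (Fin 4) ℝ).totalDegree ≤ 2 := fun i =>
        (totalDegree_X_pow i 2).le
      have hC : ∀ (r : ℝ) (P : MvPolynomial (Fin 4) ℝ), (C r * P).totalDegree ≤ P.totalDegree :=
        fun r P => by simpa using totalDegree_mul (C r) P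
      have hadd : ∀ (P Q : MvPolynomial (Fin 4) ℝ) (n : ℕ), P.totalDegree ≤ n →
          Q.totalDegree ≤ n → (P + Q).totalDegree ≤ n := fun P Q n h1 h2 =>
        (totalDegree_add P Q).trans (max_le h1 h2)
      have hsub : ∀ (P Q : MvPolynomial (Fin 4) ℝ) (n : ℕ), P.totalDegree ≤ n →
          Q.totalDegree ≤ n → (P - Q).totalDegree ≤ n := fun P Q n h1 h2 =>
        (totalDegree_sub P Q).trans (max_le h1 h2)
      have hmul : ∀ (P Q : MvPolynomial (Fin 4) ℝ) (n l : ℕ), P.totalDegree ≤ n →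
          Q.totalDegree ≤ l → (P * Q).totalDegree ≤ n + l := fun P Q n l h1 h2 =>
        (totalDegree_mul P Q).trans (add_le_add h1 h2)
      intro P hP
      simp only [Finset.mem_insert, Finset.mem_singleton] at hP
      rcases hP with rfl | rfl
      · refine le_trans (b := 2) ?_ (by norm_num)
        exact hsub _ _ _ (hadd _ _ _ (hadd _ _ _ ((hC _ _).trans (hadd _ _ _ (hX2 _) (hX2 _)))
          (hX2 _)) (hX2 _)) ((totalDegree_C _).le.trans (by norm_num))
      · refine hsub _ _ _ (hadd _ _ _ (hmul _ _ 1 2 (hX _) (hsub _ _ _ (hX2 _) (hX2 _))) ?_) ?_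
        · exact hmul _ _ 2 1 (hmul _ _ 1 1 ((hC _ _).trans (hX _)) (hX _)) (hX _)
        · exact ((hC _ _).trans (hadd _ _ _ (hX2 _) (hX2 _))).trans (by norm_num)
    · ext x
      simp only [Set.mem_range, Finset.mem_insert, Finset.mem_singleton, forall_eq_or_imp,
        forall_eq, Set.mem_ofPred_eq, map_sub, map_add, map_mul, map_pow, eval_C, eval_X]
      constructor
      · rintro ⟨p, rfl⟩
        have e1 := pt_eq1 hkm (f p) (t p)
        have e2 := pt_eq2 k m (f p) (t p)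
        simp only [Pi.smul_apply, smul_eq_mul]
        constructor
        · linear_combination a ^ 2 * e1
        · linear_combination a ^ 3 * e2
      · rintro ⟨h1, h2⟩
        obtain ⟨g, s, hgs⟩ := pt_surj hkm hm (a⁻¹ • x)
          (by simp only [Pi.smul_apply, smul_eq_mul]; field_simp; linarith)
          (by simp only [Pi.smul_apply, smul_eq_mul]; field_simp; linarith)
        refine ⟨(a * (2 * g + k * m * cos s), a * arc m s), ?_⟩
        have e : t (a * (2 * g + k * m * cos s), a * arc m s) = s := by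
          simp only [t]
          rw [mul_div_cancel_left₀ _ a0.ne', hτ2]
        have e' : f (a * (2 * g + k * m * cos s), a * arc m s) = g := by
          simp only [f, e]
          rw [mul_div_cancel_left₀ _ a0.ne']
          ring
        simp only [e, e', hgs, smul_smul, mul_inv_cancel₀ a0.ne', one_smul]

theorem result :
    ∀ c d : ℝ, 0 < c → 0 < d →
      ∃ F : ℝ × ℝ → (Fin 4 → ℝ),
        ContDiff ℝ ((⊤ : ℕ∞) : WithTop ℕ∞) F ∧
        (∀ p : ℝ × ℝ, F (p.1, p.2 + d) = F p ∧ F (p.1 + c, -p.2) = F p) ∧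
        (∀ p : ℝ × ℝ, ∀ u v : ℝ,
          ∑ i : Fin 4, (fderiv ℝ F p (u, v) i) ^ 2 = u ^ 2 + v ^ 2) ∧
        (2 * π * d ≤ c * ∫ v in (0 : ℝ)..(2 * π), √(1 + 3 * cos v ^ 2) →
          ∀ p q : ℝ × ℝ, F p = F q → (¬ ∃ n : ℤ, p.2 = (n : ℝ) * d / 2) →
            ∃ m n : ℤ, q.1 = p.1 + (m : ℝ) * c ∧ q.2 = (-1 : ℝ) ^ m * p.2 + (n : ℝ) * d) ∧
        ∃ S : Finset (MvPolynomial (Fin 4) ℝ), (∀ P ∈ S, P.totalDegree ≤ 3) ∧
          Set.range F = {x : Fin 4 → ℝ | ∀ P ∈ S, MvPolynomial.eval x P = 0} := by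
  intro c d hc hd
  rw [← arc_one_two_pi]
  by_cases h : 2 * π * d ≤ c * (2 * arc 1 π)
  · obtain ⟨F, h1, h2, h3, h4, h5⟩ := aux hc hd 1 one_pos (by
      rw [Nat.cast_one, mul_one, div_le_iff₀ hc]; linarith)
    exact ⟨F, h1, h2, h3, fun _ => h4 rfl, h5⟩
  · have hT : 0 < 2 * arc 1 π := by have := arc_pi_pos one_pos; positivity
    obtain ⟨K, hK⟩ := exists_nat_ge (2 * π * d / (c * (2 * arc 1 π)))
    obtain ⟨F, h1, h2, h3, -, h5⟩ := aux hc hd (K + 1) (Nat.succ_pos K) (by
      rw [div_le_iff₀ (by positivity)] at hK ⊢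
      push_cast
      nlinarith [mul_pos hc hT])
    exact ⟨F, h1, h2, h3, fun h' => absurd h' h, h5⟩

end Pool.Agent.Results.MP_886b5a_gt.CubicImmersion
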