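import Mathlib
import Pool.Agent.Lib.MP_886b5a_gt.Main

/-!
No smoothly embedded Klein bottle in `ℝ⁴` is the common zero set of polynomials of degree at most
three; in particular no flat Klein bottle has an isometric embedding of order three.
-/

set_option autoImplicit false

namespace Pool.Agent.Results.MP_886b5a_gt.NoCubicKleinBottle

theorem result (c d : ℝ) (hc : 0 < c) (hd : 0 < d) (F : ℝ × ℝ → (Fin 4 → ℝ))
    (hF : ContDiff ℝ ((⊤ : ℕ∞) : WithTop ℕ∞) F)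
    (hper : ∀ p : ℝ × ℝ, F (p.1, p.2 + d) = F p ∧ F (p.1 + c, -p.2) = F p)
    (himm : ∀ p : ℝ × ℝ, Function.Injective (fderiv ℝ F p))
    (hinj : ∀ p q : ℝ × ℝ, F p = F q →
      ∃ m n : ℤ, q.1 = p.1 + (m : ℝ) * c ∧ q.2 = (-1 : ℝ) ^ m * p.2 + (n : ℝ) * d)
    (S : Finset (MvPolynomial (Fin 4) ℝ)) (hS : ∀ P ∈ S, P.totalDegree ≤ 3) :
    Set.range F ≠ {x : Fin 4 → ℝ | ∀ P ∈ S, MvPolynomial.eval x P = 0} :=
  Pool.Agent.Lib.MP_886b5a_gt.no_cubic_klein c d hc hd F hF hper himm hinj S hS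

end Pool.Agent.Results.MP_886b5a_gt.NoCubicKleinBottle
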